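import Pool.Agent.QSX.StmtsG

set_option autoImplicit false

namespace Pool.Agent.QSX.H19

open Matrix Finset Pool.Agent.QSX

/-- the matrices -/
abbrev Mt (m : ℕ) : Type := Matrix (Fin m) (Fin m) ℝ

/-- the entries of the `k`-th diagonal -/
noncomputable def lev (m k : ℕ) : Mt m →ₗ[ℝ] Mt m where
  toFun x := fun i l => if (l : ℕ) = i + k then x i l else 0
  map_add' x y := by
    funext i l
    show (if (l : ℕ) = i + k then (x + y) i l else 0) =
      (if (l : ℕ) = i + k then x i l else 0) + (if (l : ℕ) = i + k then y i l else 0)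
    split_ifs
    · rfl
    · rw [add_zero]
  map_smul' c x := by
    funext i l
    show (if (l : ℕ) = i + k then (c • x) i l else 0) =
      c * (if (l : ℕ) = i + k then x i l else 0)
    split_ifs
    · rfl
    · rw [mul_zero]

theorem lev_apply {m k : ℕ} (x : Mt m) (i l : Fin m) :
    lev m k x i l = if (l : ℕ) = i + k then x i l else 0 := rfl

theorem part_apply {V : Type} {m : ℕ} (P : V → Fin m → ℝ) (ρ : V → ℝ) (x : Mt m) (i l : Fin m)
    [Decidable (∀ a, P a i - P a l = ρ a)] :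
    part P ρ x i l = if ∀ a, P a i - P a l = ρ a then x i l else 0 := by
  unfold part
  by_cases h : ∀ a, P a i - P a l = ρ a
  · rw [if_pos h, if_pos h]
  · rw [if_neg h, if_neg h]

theorem part_lev {V : Type} {m : ℕ} (P : V → Fin m → ℝ) (ρ : V → ℝ) (k : ℕ) (x : Mt m) :
    part P ρ (lev m k x) = lev m k (part P ρ x) := by
  classical
  funext i l
  rw [part_apply, lev_apply, lev_apply, part_apply]
  split_ifs <;> rfl

/-- the linear right inverse -/
theorem exists_section {m : ℕ} (W : Submodule ℝ (Mt m)) (L : Mt m →ₗ[ℝ] Mt m) :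
    ∃ σ : Mt m →ₗ[ℝ] Mt m, (∀ z, σ z ∈ W) ∧ ∀ x ∈ W, L (σ (L x)) = L x := by
  set L' : W →ₗ[ℝ] Mt m := L.domRestrict W with hL'
  obtain ⟨s, hs⟩ := L'.rangeRestrict.exists_rightInverse_of_surjective L'.range_rangeRestrict
  obtain ⟨g, hg⟩ := s.exists_extend
  refine ⟨W.subtype ∘ₗ g, fun z => (g z).2, fun x hx => ?_⟩
  have h1 : L x = L' ⟨x, hx⟩ := rfl
  set r : LinearMap.range L' := ⟨L' ⟨x, hx⟩, LinearMap.mem_range_self L' _⟩ with hr
  have h2 : g (L x) = s r := by
    rw [← hg]
    rfl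
  show L ((g (L x) : W) : Mt m) = L x
  rw [h2]
  have h3 : L'.rangeRestrict (s r) = r := by
    have := congrArg (fun f => f r) hs
    exact this
  have h4 := congrArg Subtype.val h3
  exact h4

/-- the bound for a linear map -/
theorem exists_bound {m : ℕ} (σ : Mt m →ₗ[ℝ] Mt m) : ∃ K : ℝ, 0 ≤ K ∧ ∀ (z : Mt m) (M : ℝ),
    0 ≤ M → (∀ i l, |z i l| ≤ M) → ∀ i l, |σ z i l| ≤ K * M := by
  refine ⟨∑ i' : Fin m, ∑ l' : Fin m, ∑ i : Fin m, ∑ l : Fin m,
    |σ (Matrix.single i' l' 1) i l|, by positivity, fun z M hM hz i l => ?_⟩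
  have e : σ z = ∑ i' : Fin m, ∑ l' : Fin m, z i' l' • σ (Matrix.single i' l' 1) := by
    conv_lhs => rw [Matrix.matrix_eq_sum_single z]
    rw [map_sum]
    refine Finset.sum_congr rfl fun i' _ => ?_
    rw [map_sum]
    refine Finset.sum_congr rfl fun l' _ => ?_
    rw [← map_smul, Matrix.smul_single, smul_eq_mul, mul_one]
  have e2 : σ z i l = ∑ i' : Fin m, ∑ l' : Fin m, z i' l' * σ (Matrix.single i' l' 1) i l := by
    rw [e, Matrix.sum_apply]
    refine Finset.sum_congr rfl fun i' _ => ?_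
    rw [Matrix.sum_apply]
    rfl
  rw [e2, Finset.sum_mul]
  refine (Finset.abs_sum_le_sum_abs _ _).trans (Finset.sum_le_sum fun i' _ => ?_)
  rw [Finset.sum_mul]
  refine (Finset.abs_sum_le_sum_abs _ _).trans (Finset.sum_le_sum fun l' _ => ?_)
  rw [abs_mul, mul_comm]
  have h1 : |σ (Matrix.single i' l' 1) i l| ≤
      ∑ i : Fin m, ∑ l : Fin m, |σ (Matrix.single i' l' 1) i l| := by
    calc |σ (Matrix.single i' l' 1) i l| ≤ ∑ l : Fin m, |σ (Matrix.single i' l' 1) i l| :=
          Finset.single_le_sum (f := fun l => |σ (Matrix.single i' l' 1) i l|)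
            (fun _ _ => abs_nonneg _) (Finset.mem_univ l)
      _ ≤ _ := Finset.single_le_sum
            (f := fun i => ∑ l : Fin m, |σ (Matrix.single i' l' 1) i l|)
            (fun _ _ => Finset.sum_nonneg fun _ _ => abs_nonneg _) (Finset.mem_univ i)
  calc |σ (Matrix.single i' l' 1) i l| * |z i' l'|
      ≤ |σ (Matrix.single i' l' 1) i l| * M :=
        mul_le_mul_of_nonneg_left (hz i' l') (abs_nonneg _)
    _ ≤ _ := mul_le_mul_of_nonneg_right h1 hM

/-- the weight of an entry -/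
def wgt {V : Type} [NormedAddCommGroup V] [NormedSpace ℝ V] {m : ℕ}
    (P : V →ₗ[ℝ] (Fin m → ℝ)) (i l : Fin m) : V →ₗ[ℝ] ℝ :=
  (LinearMap.proj i ∘ₗ P) - (LinearMap.proj l ∘ₗ P)

theorem wgt_apply {V : Type} [NormedAddCommGroup V] [NormedSpace ℝ V] {m : ℕ}
    (P : V →ₗ[ℝ] (Fin m → ℝ)) (i l : Fin m) (a : V) : wgt P i l a = P a i - P a l := rfl

theorem sec (hprt : PrtStmt) : SecStmt := by
  classical
  intro D V _ _ _ P hP k
  obtain ⟨σ, hσ1, hσ2⟩ := exists_section (D.nk k) (lev D.m k)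
  obtain ⟨K, hK, hb⟩ := exists_bound σ
  refine ⟨K + 1, by positivity, fun x hx => ?_⟩
  set Wt : Finset (V →ₗ[ℝ] ℝ) :=
    Finset.univ.image (fun q : Fin D.m × Fin D.m => wgt P q.1 q.2) with hWt
  have hent : ∀ i l : Fin D.m,
      (∑ ρ ∈ Wt, part P ρ (σ (part P ρ (lev D.m k x)))) i l =
        σ (part P (wgt P i l) (lev D.m k x)) i l := by
    intro i l
    rw [Matrix.sum_apply, Finset.sum_eq_single (wgt P i l)]
    · rw [part_apply, if_pos]
      intro a
      exact (wgt_apply P i l a).symm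
    · intro ρ _ hne
      rw [part_apply, if_neg]
      intro h
      apply hne
      ext a
      rw [wgt_apply]
      exact (h a).symm
    · intro h
      exact absurd (Finset.mem_image.2 ⟨(i, l), Finset.mem_univ _, rfl⟩) h
  refine ⟨∑ ρ ∈ Wt, part P ρ (σ (part P ρ (lev D.m k x))), ?_, ?_, ?_⟩
  · exact Submodule.sum_mem _ fun ρ _ => hprt D V P hP ρ k _ (hσ1 _)
  · intro i l hil
    rw [hent, part_lev]
    have h1 : part P (wgt P i l) x ∈ D.nk k := hprt D V P hP (wgt P i l) k x hx
    have h2 := congrFun (congrFun (hσ2 _ h1) i) l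
    rw [lev_apply, lev_apply, if_pos hil, if_pos hil] at h2
    rw [h2, part_apply, if_pos]
    intro a
    exact (wgt_apply P i l a).symm
  · intro i l _ M hM hxM
    rw [hent]
    refine (hb _ M hM ?_ i l).trans ?_
    · intro i' l'
      rw [part_apply]
      split_ifs with h
      · rw [lev_apply]
        split_ifs with h'
        · exact hxM i' l' h' fun a => by rw [h a, wgt_apply]
        · rw [abs_zero]; exact hM
      · rw [abs_zero]; exact hM
    · nlinarith

end Pool.Agent.QSX.H19
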